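import Pool.Agent.Helper19.TGX.Goals

/-!
# Project TGX, packet IN3
-/

set_option autoImplicit false

open Polynomial

namespace Pool.Agent.Helper17.TGX.IN3

open WeierstrassCurve
open Pool.Agent.Helper29.BL Pool.Agent.Helper42.SG
open Pool.Agent.Helper60.T3 (WL zd IP)
open Pool.Agent.Helper92.TG (mp)

lemma ind {k F F' : Type} [Field k] [Field F] [Field F'] [Algebra k F] [Algebra k F']
    [Algebra F F'] (j : F →ₐ[k] F') (hj : ∀ a, j a = algebraMap F F' a) {a : F} {b : F'}
    (ha : Transcendental k a) (hb : Transcendental F b) :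
    AlgebraicIndependent k ![j a, b] := by
  have h0 : Transcendental k (j a) := by
    intro h
    exact ha ((isAlgebraic_algHom_iff j j.injective).1 h)
  have h1 : AlgebraicIndependent k (fun _ : Fin 1 => j a) := by
    rw [algebraicIndependent_unique_type_iff]
    exact h0
  have h2 : Transcendental (Algebra.adjoin k (Set.range (fun _ : Fin 1 => j a))) b := by
    rintro ⟨p, hp, hp0⟩
    have hle : ∀ y : Algebra.adjoin k (Set.range (fun _ : Fin 1 => j a)), ∃ z : F,
        j z = (y : F') := by
      intro y
      have : Algebra.adjoin k (Set.range (fun _ : Fin 1 => j a)) ≤ j.range := by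
        refine Algebra.adjoin_le ?_
        rintro _ ⟨_, rfl⟩
        exact ⟨a, rfl⟩
      exact this y.2
    choose s hs using hle
    have hs0 : s 0 = 0 := by
      have h5 : j (s 0) = j 0 := by
        rw [hs, map_zero]
        rfl
      exact j.injective h5
    set q : F[X] := ∑ i ∈ Finset.range (p.natDegree + 1), C (s (p.coeff i)) * X ^ i with hq
    have hc : ∀ i, q.coeff i = s (p.coeff i) := by
      intro i
      rw [hq, Polynomial.finsetSum_coeff]
      simp only [coeff_C_mul_X_pow]
      rw [Finset.sum_ite_eq]
      split_ifs with h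
      · rfl
      · rw [Finset.mem_range, not_lt] at h
        rw [coeff_eq_zero_of_natDegree_lt (by omega), hs0]
    refine hb ⟨q, ?_, ?_⟩
    · intro h
      apply hp
      ext i
      have := hc i
      rw [h, coeff_zero] at this
      have h3 := hs (p.coeff i)
      rw [← this, map_zero] at h3
      rw [← h3]
      simp
    · rw [hq, map_sum]
      rw [aeval_eq_sum_range] at hp0
      rw [← hp0]
      refine Finset.sum_congr rfl fun i _ => ?_
      rw [map_mul, aeval_C, ← hj, hs, map_pow, aeval_X, Algebra.smul_def]
      rfl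
  have h3 := (h1.option_iff_transcendental b).2 h2
  have h4 := h3.comp (fun i : Fin 2 => if i = 0 then some (0 : Fin 1) else none) (by
    intro x y
    fin_cases x <;> fin_cases y <;> simp)
  convert h4 using 1
  funext i
  fin_cases i <;> simp

lemma pt {F : Type} [Field F] [CharZero F] (W : Affine F) (hW : W.IsElliptic) (x ψ : F)
    (h : ψ ^ 2 = Bf W x) : ∃ P : W.Point, xc P = x := by
  have heq : W.Equation x ((ψ - W.a₁ * x - W.a₃) / 2) := by
    rw [Affine.equation_iff]
    have h4 : (4 : F) ≠ 0 := by norm_num
    apply mul_left_cancel₀ h4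
    simp only [Bf, WeierstrassCurve.b₂, WeierstrassCurve.b₄, WeierstrassCurve.b₆] at h
    field_simp
    linear_combination h
  have hns : W.Nonsingular x ((ψ - W.a₁ * x - W.a₃) / 2) := by
    have := hW
    exact (Affine.equation_iff_nonsingular).1 heq
  exact ⟨Affine.Point.some _ _ hns, rfl⟩

theorem t : Pool.Agent.Helper19.TGX.IN3 := by
  intro k _ _ W hW F _ _ _ P hP
  classical
  let alg : Algebra k (AlgebraicClosure (RatFunc F)) :=
    ((algebraMap F (AlgebraicClosure (RatFunc F))).comp (algebraMap k F)).toAlgebra
  let j : F →ₐ[k] AlgebraicClosure (RatFunc F) :=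
    { algebraMap F (AlgebraicClosure (RatFunc F)) with commutes' := fun _ => rfl }
  have hc : CharZero F := charZero_of_injective_algebraMap (algebraMap k F).injective
  have hc' : CharZero (AlgebraicClosure (RatFunc F)) :=
    charZero_of_injective_algebraMap (algebraMap F (AlgebraicClosure (RatFunc F))).injective
  set x : AlgebraicClosure (RatFunc F) := algebraMap (RatFunc F) _ RatFunc.X with hx
  obtain ⟨ψ, hψ⟩ := IsAlgClosed.exists_pow_nat_eq (Bf (WL (AlgebraicClosure (RatFunc F)) W) x)
    (n := 2) (by norm_num)
  have hE : (WL (AlgebraicClosure (RatFunc F)) W).IsElliptic := by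
    have := hW
    infer_instance
  obtain ⟨Q, hQ⟩ := pt _ hE x ψ hψ
  refine ⟨AlgebraicClosure (RatFunc F), inferInstance, Classical.decEq _, alg, j, Q, ?_⟩
  have hb : Transcendental F x := by
    rw [hx]
    exact (transcendental_algebraMap_iff (algebraMap (RatFunc F) _).injective).2
      RatFunc.transcendental_X
  have hm : xc (mp j P) = j (xc P) := by
    rcases P with _ | ⟨x0, y0, h0⟩
    · exact (map_zero j).symm
    · rfl
  rw [hm, hQ]
  exact ind j (fun _ => rfl) hP hb

end Pool.Agent.Helper17.TGX.IN3
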